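import Pool.Agent.H575.GK.All

set_option autoImplicit false
set_option linter.unusedSectionVars false

/-!
# Project LS: the mean (after `shares` of helper7)
-/

namespace Pool.Agent.H575.LS

open NumberField IsDedekindDomain Filter Topology Finset
open Pool.Agent.Q283.LQ (Sm Box Nest nS)
open Pool.Agent.Q7.LK
open Pool.Agent.Q7.LS
open Pool.Agent.H575.GK (t_SUR t_SPL t_NSB t_RKR t_DEP t_OUT t_CR1S t_CR2S t_BRG t_MEANN t_LCN t_SUMC t_LOGA t_LOGB)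

open Classical in
/-- The mean of `p ^ τ - 1`, `(p - 1) (δ + τ - 1) < number of the relations`, `δ = r + s - N`. -/
theorem meanS (p : ℕ) [Fact p.Prime] (hp : p ≠ 2) (F : Type) [Field F] [NumberField F] (ζ : F)
    (hζ : IsPrimitiveRoot ζ p) :
    ∃ y0 : ℕ, ∀ y, y0 ≤ y → ∀ T S : Set (HeightOneSpectrum (𝓞 F)), (∀ v ∈ T, Dp p v) →
      Disjoint T S → (∀ v ∈ S, Sm y v) → S.Finite → ∀ D0 : F, D0 ≠ 0 → ∀ ε : ℝ, 0 < ε →
      ∃ k0 : ℕ, ∀ k, k0 ≤ k → ∀ z : Fin k → ZMod p, (∀ i, z i ≠ 0) → Nest k fun X =>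
        (Box y X : Set (Fin k → HeightOneSpectrum (𝓞 F))).Finite ∧ 0 < ((Ens p y D0 z X).ncard : ℝ) ∧
        (∀ q ∈ Ens p y D0 z X, ∀ D, Fits p y D0 z q D → ¬ IsPow p D ∧ sX p S D = sX p S D0) ∧
        ∀ (B : Finset (Fin k → HeightOneSpectrum (𝓞 F))) (τ : (Fin k → HeightOneSpectrum (𝓞 F)) → ℕ),
          (∀ q ∈ B, q ∈ Ens p y D0 z X ∧ 1 ≤ τ q ∧ ∃ D, Fits p y D0 z q D ∧
            ∃ (L : Type) (_ : Field L) (_ : NumberField L) (_ : Algebra F L), Kum p F L D ∧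
              OutMS L p T S ((p - 1) * (InfinitePlace.nrComplexPlaces F + sX p S D0 - dT p T + τ q - 1) + 1)) →
          ∑ q ∈ B, ((p : ℝ) ^ τ q - 1) ≤
            ((1 / (p : ℝ)) ^ gp (InfinitePlace.nrComplexPlaces F + sX p S D0) (dT p T) + ε) *
              ((Ens p y D0 z X).ncard : ℝ) := by
  have hpp : p.Prime := Fact.out
  have hp1 : (1 : ℝ) < p := by exact_mod_cast hpp.one_lt
  have hp0 : (p : ℝ) ≠ 0 := by positivity
  obtain ⟨y0, hy0⟩ := t_MEANN p hp F ζ hζ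
  refine ⟨max y0 p, fun y hy T S hT hTS hS hSf D0 hD0 ε hε => ?_⟩
  have hyp : p ≤ y := (le_max_right _ _).trans hy
  have hloc := t_LCN p hp F ζ hζ y hyp T S hT hTS D0 hD0
  have hsum := t_SUMC p hp F ζ hζ y hyp T S hT hTS hS D0 hD0
  obtain ⟨k0, hk0⟩ := hy0 y ((le_max_left _ _).trans hy) D0 hD0 _ _ hloc ε hε
  refine ⟨max k0 1, fun k hk z hz => nest_mono k _ _ (fun X hX => ?_) (hk0 k ((le_max_left _ _).trans hk) z hz)⟩
  have hk1 : 1 ≤ k := (le_max_right _ _).trans hk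
  obtain ⟨hfin, hpos, hN⟩ := hX
  refine ⟨hfin, hpos, fun q hq D hD => ⟨fits_not_pow hq.1 hk1 hz hD,
    (t_BRG p hp F ζ hζ y hyp T S hT hTS hS D0 hD0 k z q D hD).1⟩, fun Bd τ hBd => ?_⟩
  set N := dT p T with hNdef
  set r := InfinitePlace.nrComplexPlaces F with hr
  set s := sX p S D0 with hs
  set C := ∑ᶠ v, cX p y T S D0 v with hC
  set δ := r + s - N with hδ
  set E := Ens p y D0 z X with hE
  have hEf : E.Finite := hfin.subset fun q hq => hq.1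
  have hBdE : ∀ q ∈ Bd, q ∈ E := fun q hq => (hBd q hq).1
  -- the bad `q`
  have hbad : ∀ q ∈ Bd, ∃ D, Fits p y D0 z q D ∧ ManyX p y (fun v a => AX p T S D0 v a) D (p ^ (δ + τ q) - 1) := by
    intro q hqB
    obtain ⟨hq, ht, D, hD, L, i1, i2, i3, hK, ho⟩ := hBd q hqB
    refine ⟨D, hD, many_of_out t_CR1S t_CR2S t_BRG hp hζ hyp hT hTS hS hD0 hD (fits_not_pow hq.1 hk1 hz hD) hK ho ?_⟩
    have h0 : 0 < p - 1 := Nat.sub_pos_of_lt hpp.one_lt
    obtain ⟨w, hw⟩ : ∃ w, δ + τ q = w + 1 := ⟨δ + τ q - 1, by omega⟩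
    rw [hw, Nat.add_sub_cancel, Nat.mul_add, mul_one]
    omega
  -- all `q`
  have hall : ∀ q ∈ E, ∃ D, Fits p y D0 z q D ∧ ManyX p y (fun v a => AX p T S D0 v a) D (p ^ δ - 1) := by
    rintro q ⟨hq, D, hD⟩
    refine ⟨D, hD, ?_⟩
    rcases Nat.eq_zero_or_pos δ with h0 | h0
    · rw [h0, pow_zero, Nat.sub_self]
      exact ⟨fun i => i.elim0, fun i => i.elim0, fun i => i.elim0⟩
    · have hnp := fits_not_pow hq hk1 hz hD
      obtain ⟨L, i1, i2, i3, hK, _⟩ := Pool.Agent.Q150.LK.exists_kumfield hζ hnp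
      have hsD : sX p S D = s := (t_BRG p hp F ζ hζ y hyp T S hT hTS hS D0 hD0 k z q D hD).1
      have ho : OutMS L p T S ((p - 1) * δ) := by
        refine out_of_rank t_NSB t_RKR hp hζ hK hnp hT hTS hSf (not_ind t_DEP hp hK.deg hT hTS) ?_
        rw [hsD, ← hNdef]
        have h2 : (p - 1) * δ + (p - 1) * N = (p - 1) * (r + s) := by
          rw [← Nat.mul_add]
          congr 1
          omega
        rw [← add_assoc]
        exact Nat.succ_le_succ h2.le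
      refine many_of_out t_CR1S t_CR2S t_BRG hp hζ hyp hT hTS hS hD0 hD hnp hK ho ?_
      have : 0 < p - 1 := Nat.sub_pos_of_lt hpp.one_lt
      omega
  -- the mean
  have hmean := hN hEf.toFinset (fun q => if q ∈ Bd then p ^ (δ + τ q) - 1 else p ^ δ - 1)
    (fun q hq => hEf.mem_toFinset.mp hq) (fun q hq => by
      by_cases h : q ∈ Bd
      · simp only [h, if_true]
        exact hbad q h
      · simp only [h, if_false]
        exact hall q (hEf.mem_toFinset.mp hq))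
  have hsumN : (∑ q ∈ hEf.toFinset, ((if q ∈ Bd then p ^ (δ + τ q) - 1 else p ^ δ - 1 : ℕ) : ℝ)) =
      (p : ℝ) ^ δ * (∑ q ∈ Bd, ((p : ℝ) ^ τ q - 1)) + (E.ncard : ℝ) * ((p : ℝ) ^ δ - 1) := by
    have h1 : ∀ q : Fin k → HeightOneSpectrum (𝓞 F), ((if q ∈ Bd then p ^ (δ + τ q) - 1 else p ^ δ - 1 : ℕ) : ℝ) =
        (if q ∈ Bd then (p : ℝ) ^ δ * ((p : ℝ) ^ τ q - 1) else 0) + ((p : ℝ) ^ δ - 1) := by
      intro q
      have h2 : ∀ j : ℕ, ((p ^ j - 1 : ℕ) : ℝ) = (p : ℝ) ^ j - 1 := by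
        intro j
        rw [Nat.cast_sub (Nat.one_le_pow _ _ hpp.pos)]
        push_cast
        ring
      split_ifs
      · rw [h2, pow_add]
        ring
      · rw [h2]
        ring
    simp_rw [h1]
    rw [Finset.sum_add_distrib, Finset.sum_const, nsmul_eq_mul, ← Set.ncard_eq_toFinset_card E hEf,
      ← Finset.sum_filter, Finset.mul_sum]
    congr 1
    refine Finset.sum_congr ?_ (fun _ _ => rfl)
    ext q
    simp only [Finset.mem_filter, Set.Finite.mem_toFinset]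
    exact ⟨fun h => h.2, fun h => ⟨hBdE q h, h⟩⟩
  rw [hsumN] at hmean
  -- the exponent
  have hμ : (p : ℝ) ^ C * (1 / (p : ℝ)) ^ r ≤ (p : ℝ) ^ δ * (1 / (p : ℝ)) ^ (N - (r + s)) := by
    have h1 : C + N ≤ 2 * r + s := hsum
    have h3 : ∀ a b c : ℕ, (p : ℝ) ^ a * (1 / (p : ℝ)) ^ b = (p : ℝ) ^ (a + c) * (1 / (p : ℝ)) ^ (b + c) := by
      intro a b c
      rw [pow_add, pow_add, mul_mul_mul_comm, ← mul_pow (p : ℝ) (1 / (p : ℝ)) c, mul_one_div_cancel hp0,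
        one_pow, mul_one]
    rw [h3 C r (N - (r + s)), h3 δ (N - (r + s)) r, add_comm r (N - (r + s))]
    refine mul_le_mul_of_nonneg_right ?_ (by positivity)
    exact pow_le_pow_right₀ hp1.le (by omega)
  -- the conclusion
  have hEpos : (0 : ℝ) ≤ (E.ncard : ℝ) := by positivity
  have hpd : (1 : ℝ) ≤ (p : ℝ) ^ δ := one_le_pow₀ hp1.le
  have hkey : (p : ℝ) ^ δ * (∑ q ∈ Bd, ((p : ℝ) ^ τ q - 1)) ≤
      ((1 / (p : ℝ)) ^ (N - (r + s)) + ε) * (E.ncard : ℝ) := by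
    rcases Nat.eq_zero_or_pos δ with h0 | h0
    · rw [h0, pow_zero, one_mul] at hμ hmean ⊢
      have h5 := mul_le_mul_of_nonneg_right hμ hEpos
      linarith
    · have h6 : N - (r + s) = 0 := by omega
      rw [h6, pow_zero, mul_one] at hμ
      rw [h6, pow_zero]
      have h5 := mul_le_mul_of_nonneg_right hμ hEpos
      linarith
  have hg : (1 / (p : ℝ)) ^ gp (r + s) N = (1 / (p : ℝ)) ^ δ * (1 / (p : ℝ)) ^ (N - (r + s)) := by
    rw [← pow_add]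
    rfl
  rw [hg]
  have h9 : (∑ q ∈ Bd, ((p : ℝ) ^ τ q - 1)) =
      (1 / (p : ℝ)) ^ δ * ((p : ℝ) ^ δ * (∑ q ∈ Bd, ((p : ℝ) ^ τ q - 1))) := by
    have h10 : (1 / (p : ℝ)) ^ δ * (p : ℝ) ^ δ = 1 := by
      rw [← mul_pow, one_div_mul_cancel hp0, one_pow]
    rw [← mul_assoc, h10, one_mul]
  have h8 : (∑ q ∈ Bd, ((p : ℝ) ^ τ q - 1)) ≤
      (1 / (p : ℝ)) ^ δ * (((1 / (p : ℝ)) ^ (N - (r + s)) + ε) * (E.ncard : ℝ)) := by
    rw [h9]
    exact mul_le_mul_of_nonneg_left hkey (by positivity)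
  have h11 : (1 / (p : ℝ)) ^ δ ≤ 1 := pow_le_one₀ (by positivity) (by
    rw [div_le_one (by linarith)]
    exact hp1.le)
  refine h8.trans ?_
  have h12 : (1 / (p : ℝ)) ^ δ * (ε * (E.ncard : ℝ)) ≤ 1 * (ε * (E.ncard : ℝ)) :=
    mul_le_mul_of_nonneg_right h11 (by positivity)
  have h13 : (1 / (p : ℝ)) ^ δ * (((1 / (p : ℝ)) ^ (N - (r + s)) + ε) * (E.ncard : ℝ)) =
      (1 / (p : ℝ)) ^ δ * (1 / (p : ℝ)) ^ (N - (r + s)) * (E.ncard : ℝ) +
        (1 / (p : ℝ)) ^ δ * (ε * (E.ncard : ℝ)) := by ring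
  rw [h13]
  linarith

end Pool.Agent.H575.LS
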