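import Pool.Agent.H575.LS.Mean
import Pool.Agent.H575.GK.Prod

set_option autoImplicit false
set_option linter.unusedSectionVars false

/-!
# The rank of the logarithms of a group at a set of places
-/

namespace Pool.Agent.H575.LS

open NumberField IsDedekindDomain Filter Topology Finset
open Pool.Agent.Q7.LK
open Pool.Agent.Q7.LS
open Pool.Agent.Q7.GK (Em)
open Pool.Agent.Q16.GK.GN (oE em_iff norm_fiber log_prod)
open Pool.Agent.Q223.LS (PS mem_SUn PS_finite)
open Pool.Agent.W289.SL (IsIwasawaLog)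
open Pool.Agent.H575.GK (t_SUR t_SPL t_NSB t_RKR t_DEP t_OUT t_CR1S t_CR2S t_BRG t_MEANN t_LCN t_SUMC t_LOGA t_LOGB
  le_finrank_span_iff)

section K

variable {p : ℕ} [Fact p.Prime] {K : Type} [Field K] [NumberField K]

/-- the embeddings which belong to the elements of `T` -/
abbrev EmT (p : ℕ) [Fact p.Prime] {K : Type} [Field K] [NumberField K] (T : Set (HeightOneSpectrum (𝓞 K))) : Type :=
  {σ : K →+* ℂ_[p] // ∃ P ∈ T, Em P σ}

instance (T : Set (HeightOneSpectrum (𝓞 K))) : Finite (EmT p T) := Subtype.finite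

/-- the vectors `(log σ x)` -/
def lvecs (Lg : ℂ_[p] → ℂ_[p]) (T : Set (HeightOneSpectrum (𝓞 K))) (H : Subgroup Kˣ) : Set (EmT p T → ℂ_[p]) :=
  {f | ∃ x ∈ H, ∀ σ : EmT p T, f σ = Lg (σ.1 (x : K))}

/-- the rank of the logarithms of `H` at `T` -/
noncomputable def lrk (Lg : ℂ_[p] → ℂ_[p]) (T : Set (HeightOneSpectrum (𝓞 K))) (H : Subgroup Kˣ) : ℕ :=
  Module.finrank ℂ_[p] (Submodule.span ℂ_[p] (lvecs Lg T H))

theorem le_lrk_iff (Lg : ℂ_[p] → ℂ_[p]) (T : Set (HeightOneSpectrum (𝓞 K))) (H : Subgroup Kˣ) (R : ℕ) :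
    R ≤ lrk Lg T H ↔ ∃ x : Fin R → Kˣ, (∀ i, x i ∈ H) ∧
      ∀ a : Fin R → ℂ_[p], (∀ σ : K →+* ℂ_[p], (∃ P ∈ T, Em P σ) → ∑ i, a i * Lg (σ (x i : K)) = 0) → a = 0 := by
  have : Fintype (EmT p T) := Fintype.ofFinite _
  unfold lrk
  rw [le_finrank_span_iff]
  constructor
  · rintro ⟨f, hf, hl⟩
    choose x hxH hx using hf
    refine ⟨x, hxH, fun a ha => ?_⟩
    rw [Fintype.linearIndependent_iff] at hl
    funext i
    refine hl a ?_ i
    funext σ
    rw [Finset.sum_apply, Pi.zero_apply]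
    rw [← ha σ.1 σ.2]
    refine Finset.sum_congr rfl fun i _ => ?_
    rw [Pi.smul_apply, smul_eq_mul, hx i σ]
  · rintro ⟨x, hxH, hi⟩
    refine ⟨fun i σ => Lg (σ.1 (x i : K)), fun i => ⟨x i, hxH i, fun σ => rfl⟩, ?_⟩
    rw [Fintype.linearIndependent_iff]
    intro a ha
    have h1 : a = 0 := by
      apply hi a
      intro σ hσ
      have h3 := congrFun ha ⟨σ, hσ⟩
      rw [Finset.sum_apply, Pi.zero_apply] at h3
      rw [← h3]
      rfl
    intro i
    rw [h1]
    rfl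

/-- the `S`-units -/
def SU (S : Set (HeightOneSpectrum (𝓞 K))) : Subgroup Kˣ where
  carrier := {x | ∀ P : HeightOneSpectrum (𝓞 K), P ∉ S → P.valuation K (x : K) = 1}
  one_mem' := by
    intro P _
    simp
  mul_mem' := by
    intro x y hx hy P hP
    rw [Units.val_mul, map_mul, hx P hP, hy P hP, one_mul]
  inv_mem' := by
    intro x hx P hP
    rw [Units.val_inv_eq_inv_val, map_inv₀, hx P hP, inv_one]

/-- the rank of the group of the `S`-units -/
noncomputable def srk (K : Type) [Field K] [NumberField K] (S : Set (HeightOneSpectrum (𝓞 K))) : ℕ :=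
  InfinitePlace.nrRealPlaces K + InfinitePlace.nrComplexPlaces K - 1 + S.ncard

/-- the rank of the logarithms is at most the rank of the group -/
theorem lrk_le_srk {Lg : ℂ_[p] → ℂ_[p]} (hL : IsIwasawaLog p Lg) (T : Set (HeightOneSpectrum (𝓞 K)))
    {S : Set (HeightOneSpectrum (𝓞 K))} (hS : S.Finite) : lrk Lg T (SU S) ≤ srk K S := by
  obtain ⟨U, hU, hUfg, hUr⟩ := t_SUR K S hS
  have hUS : U = SU S := by
    ext x
    rw [hU]
    rfl
  subst hUS
  have hUf : Module.Finite ℤ (Additive (SU S)) := by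
    rw [Module.Finite.iff_addGroup_fg]
    exact GroupFG.iff_add_fg.1 hUfg
  obtain ⟨x, hx, hi⟩ := (le_lrk_iff Lg T (SU S) _).1 le_rfl
  have h1 : LinearIndependent ℤ (fun i => (Additive.ofMul (⟨x i, hx i⟩ : SU S) : Additive (SU S))) := by
    rw [Fintype.linearIndependent_iff]
    intro g hg
    have hg' : ∏ i, (⟨x i, hx i⟩ : SU S) ^ g i = 1 := hg
    have hg2 : ∏ i, x i ^ g i = 1 := by
      have h := congrArg (SU S).subtype hg'
      rw [map_prod, map_one] at h
      exact h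
    have h2 : (fun i => (g i : ℂ_[p])) = 0 := by
      apply hi
      intro σ _
      have h3 := Pool.Agent.Q26.LS.log_prod hL σ x g
      rw [hg2] at h3
      simp only [Units.val_one, map_one, hL.one] at h3
      exact h3.symm
    intro i
    have h4 : (g i : ℂ_[p]) = 0 := congrFun h2 i
    exact_mod_cast h4
  have h2 := h1.fintype_card_le_finrank
  rw [Fintype.card_fin, hUr] at h2
  exact h2

end K

section L

variable {p : ℕ} [Fact p.Prime] {F : Type} [Field F] [NumberField F] {L : Type} [Field L] [NumberField L] [Algebra F L]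

theorem under_oE (σ : L →+* ℂ_[p]) : (oE σ).under (𝓞 F) = oE (σ.comp (algebraMap F L)) := by
  rw [← Pool.Agent.Q223.LS.ab_iff, Pool.Agent.Q16.GK.GN.ab_iff]

theorem em_PS_iff (T : Set (HeightOneSpectrum (𝓞 F))) (σ : L →+* ℂ_[p]) :
    (∃ P ∈ PS F L T, Em P σ) ↔ oE (σ.comp (algebraMap F L)) ∈ T := by
  constructor
  · rintro ⟨P, hP, h⟩
    rw [em_iff] at h
    rw [← under_oE, h]
    exact hP
  · intro h
    refine ⟨oE σ, ?_, em_iff.2 rfl⟩
    change (oE σ).under (𝓞 F) ∈ T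
    rw [under_oE]
    exact h

theorem ovT_iff_oE (T : Set (HeightOneSpectrum (𝓞 F))) (σ : L →+* ℂ_[p]) :
    OvT T σ ↔ oE (σ.comp (algebraMap F L)) ∈ T := by
  constructor
  · rintro ⟨v, hv, h⟩
    have h1 : v.asIdeal ≤ (oE (σ.comp (algebraMap F L))).asIdeal := fun x hx => h x hx
    have h2 : v = oE (σ.comp (algebraMap F L)) :=
      HeightOneSpectrum.ext (v.isMaximal.eq_of_le (oE (σ.comp (algebraMap F L))).isPrime.ne_top h1)
    rw [← h2]
    exact hv
  · intro h
    exact ⟨_, h, fun x hx => hx⟩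

theorem em_iff_T (T : Set (HeightOneSpectrum (𝓞 F))) (τ : F →+* ℂ_[p]) : (∃ v ∈ T, Em v τ) ↔ oE τ ∈ T := by
  constructor
  · rintro ⟨v, hv, h⟩
    rw [em_iff] at h
    rw [h]
    exact hv
  · intro h
    exact ⟨_, h, em_iff.2 rfl⟩

/-- the independence of logarithms over `ℂ_p` and over the `p`-adic integers -/
theorem le_lrk_of_indH (hp : p ≠ 2) {Lg : ℂ_[p] → ℂ_[p]} (hL : IsIwasawaLog p Lg)
    {T : Set (HeightOneSpectrum (𝓞 F))} (hT : ∀ v ∈ T, Dp p v) {H : Subgroup Lˣ}
    (hH : ∀ x ∈ H, ∀ v ∈ T, Un v (x : L)) {R : ℕ} (h : IndH p T H R) : R ≤ lrk Lg (PS F L T) H := by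
  rw [le_lrk_iff]
  obtain ⟨ε, hε, hi⟩ := h
  refine ⟨ε, hε, fun A hA => ?_⟩
  by_contra hA0
  obtain ⟨b, hb, hr⟩ := t_LOGB p hp F L T hT Lg hL R ε (fun i v hv => hH _ (hε i) v hv) 1 (fun _ => A)
    (LinearIndependent.of_subsingleton (R := ℂ_[p]) (v := fun _ : Fin 1 => A) 0 hA0) (fun j σ hσ => by
      apply hA
      rw [em_PS_iff, ← ovT_iff_oE]
      exact hσ)
  exact hb.ne_zero 0 (hi _ (hr 0))

/-- conversely -/
theorem indH_of_le_lrk {Lg : ℂ_[p] → ℂ_[p]} (hL : IsIwasawaLog p Lg)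
    {T : Set (HeightOneSpectrum (𝓞 F))} (hT : ∀ v ∈ T, Dp p v) {H : Subgroup Lˣ} {R : ℕ}
    (h : R ≤ lrk Lg (PS F L T) H) : IndH p T H R := by
  rw [le_lrk_iff] at h
  obtain ⟨ε, hε, hi⟩ := h
  refine ⟨ε, hε, fun a ha => ?_⟩
  have h1 : (fun i => (((a i : ℤ_[p]) : ℚ_[p]) : ℂ_[p])) = 0 := by
    apply hi
    intro σ hσ
    rw [em_PS_iff, ← ovT_iff_oE] at hσ
    exact t_LOGA p F L T hT Lg hL R ε a ha σ hσ
  funext i
  have h2 : algebraMap ℚ_[p] ℂ_[p] ((a i : ℤ_[p]) : ℚ_[p]) = 0 := congrFun h1 i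
  rw [map_eq_zero] at h2
  exact Subtype.ext h2

/-- the group of the `S`-units of `L` -/
theorem SUn_eq (S : Set (HeightOneSpectrum (𝓞 F))) : SUn L S = SU (PS F L S) := by
  ext x
  rw [mem_SUn]
  rfl

theorem under_self (v : HeightOneSpectrum (𝓞 F)) : v.under (𝓞 F) = v :=
  (Pool.Agent.Q223.LS.ab_iff v v).1 (Pool.Agent.Q177.GK.ab_refl v)

theorem Lg_pow {Lg : ℂ_[p] → ℂ_[p]} (hL : IsIwasawaLog p Lg) {z : ℂ_[p]} (hz : z ≠ 0) (n : ℕ) :
    Lg (z ^ n) = n * Lg z := by
  induction n with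
  | zero => rw [pow_zero, hL.one, Nat.cast_zero, zero_mul]
  | succ n ih =>
    rw [pow_succ, hL.mul _ _ (pow_ne_zero n hz) hz, ih, Nat.cast_succ]
    ring

theorem lrk_add' {Lg : ℂ_[p] → ℂ_[p]} (hL : IsIwasawaLog p Lg) (hdeg : Module.finrank F L = p)
    (T S : Set (HeightOneSpectrum (𝓞 F))) (R R' : ℕ) (hR : R ≤ lrk Lg (PS F L T) (NS L S))
    (hR' : R' ≤ lrk Lg T (SU S)) : R + R' ≤ lrk Lg (PS F L T) (SU (PS F L S)) := by
  classical
  obtain ⟨ε, hε, hi⟩ := (le_lrk_iff Lg (PS F L T) (NS L S) _).1 hR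
  obtain ⟨x, hx, hi'⟩ := (le_lrk_iff Lg T (SU S) _).1 hR'
  set y : Fin R' → Lˣ := fun j => Units.map (algebraMap F L : F →* L) (x j) with hy
  rw [le_lrk_iff]
  refine ⟨Fin.append ε y, ?_, ?_⟩
  · intro i
    refine Fin.addCases (fun i => ?_) (fun j => ?_) i
    · rw [Fin.append_left, ← SUn_eq]
      exact (hε i).1
    · rw [Fin.append_right, ← SUn_eq]
      intro v hv P hP
      change P.valuation L (algebraMap F L ((x j : Fˣ) : F)) = 1
      rw [Pool.Agent.TeamU.val_over (Pool.Agent.Q252.LS.over_of_ab hP)]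
      have h1 : v.valuation F ((x j : Fˣ) : F) = 1 := hx j v hv
      rw [h1, one_pow]
  · intro a ha
    have hb : ∀ τ : F →+* ℂ_[p], (∃ v ∈ T, Em v τ) →
        ∑ j : Fin R', a (Fin.natAdd R j) * Lg (τ ((x j : Fˣ) : F)) = 0 := by
      intro τ hτ
      rw [em_iff_T] at hτ
      have hsum : ∑ σ : L →+* ℂ_[p] with σ.comp (algebraMap F L) = τ,
          ∑ i, a i * Lg (σ ((Fin.append ε y i : Lˣ) : L)) = 0 := by
        refine Finset.sum_eq_zero fun σ hσ => ha σ ?_
        rw [Finset.mem_filter] at hσ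
        rw [em_PS_iff, hσ.2]
        exact hτ
      rw [Finset.sum_comm] at hsum
      have h1 : ∀ i, ∑ σ : L →+* ℂ_[p] with σ.comp (algebraMap F L) = τ,
          a i * Lg (σ ((Fin.append ε y i : Lˣ) : L)) =
          a i * Lg (τ (Algebra.norm F ((Fin.append ε y i : Lˣ) : L))) := by
        intro i
        rw [← Finset.mul_sum, norm_fiber, log_prod hL _ _ fun σ _ => (map_ne_zero σ).2 (Units.ne_zero _)]
      rw [Finset.sum_congr rfl fun i _ => h1 i, Fin.sum_univ_add] at hsum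
      have h2 : ∀ i : Fin R, Lg (τ (Algebra.norm F ((ε i : Lˣ) : L))) = 0 := by
        intro i
        have h4 : Algebra.norm F ((ε i : Lˣ) : L) = 1 := by
          have h3 : nmU F (ε i) = 1 := (hε i).2
          exact congrArg Units.val h3
        rw [h4, map_one, hL.one]
      have h3 : ∀ j : Fin R', Lg (τ (Algebra.norm F ((y j : Lˣ) : L))) = p * Lg (τ ((x j : Fˣ) : F)) := by
        intro j
        have h4 : Algebra.norm F ((y j : Lˣ) : L) = ((x j : Fˣ) : F) ^ p := by
          change Algebra.norm F (algebraMap F L ((x j : Fˣ) : F)) = _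
          rw [Algebra.norm_algebraMap, hdeg]
        rw [h4, map_pow, Lg_pow hL ((map_ne_zero τ).2 (Units.ne_zero _))]
      simp only [Fin.append_left, Fin.append_right, h2, h3, mul_zero, Finset.sum_const_zero,
        zero_add] at hsum
      have hp0 : (p : ℂ_[p]) ≠ 0 := Nat.cast_ne_zero.2 (Fact.out : p.Prime).ne_zero
      have h5 : (p : ℂ_[p]) * ∑ j, a (Fin.natAdd R j) * Lg (τ ((x j : Fˣ) : F)) = 0 := by
        rw [Finset.mul_sum, ← hsum]
        exact Finset.sum_congr rfl fun j _ => by ring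
      exact (mul_eq_zero.1 h5).resolve_left hp0
    have hb0 : (fun j => a (Fin.natAdd R j)) = 0 := hi' _ hb
    have h4 : ∀ j, a (Fin.natAdd R j) = 0 := fun j => congrFun hb0 j
    have ha0 : (fun i => a (Fin.castAdd R' i)) = 0 := by
      apply hi
      intro σ hσ
      have h5 := ha σ hσ
      rw [Fin.sum_univ_add] at h5
      simp only [Fin.append_left, Fin.append_right, h4, zero_mul, Finset.sum_const_zero,
        add_zero] at h5
      exact h5
    funext i
    refine Fin.addCases (fun i => ?_) (fun j => ?_) i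
    · exact congrFun ha0 i
    · exact congrFun hb0 j

/-- the ranks add up -/
theorem lrk_add {Lg : ℂ_[p] → ℂ_[p]} (hL : IsIwasawaLog p Lg) (hdeg : Module.finrank F L = p)
    (T S : Set (HeightOneSpectrum (𝓞 F))) :
    lrk Lg (PS F L T) (NS L S) + lrk Lg T (SU S) ≤ lrk Lg (PS F L T) (SU (PS F L S)) :=
  lrk_add' hL hdeg T S _ _ le_rfl le_rfl

open Classical in
/-- the number of the primes above `S` -/
theorem card_PS_le {ζ d : F} (hζ : IsPrimitiveRoot ζ p) (hK : Kum p F L d) (hd : ¬ IsPow p d)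
    {S : Set (HeightOneSpectrum (𝓞 F))} (hS : S.Finite) : (PS F L S).ncard ≤ S.ncard + (p - 1) * sX p S d := by
  have hpp : p.Prime := Fact.out
  have hP := PS_finite (L := L) hS
  rw [Set.ncard_eq_toFinset_card _ hS, Set.ncard_eq_toFinset_card _ hP]
  have h1 : ∀ P ∈ hP.toFinset, P.under (𝓞 F) ∈ hS.toFinset := by
    intro P hP'
    rw [Set.Finite.mem_toFinset] at hP' ⊢
    exact hP'
  rw [Finset.card_eq_sum_card_fiberwise h1]
  have hs : sX p S d = ∑ v ∈ hS.toFinset, if Lpw p v d then 1 else 0 := by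
    unfold sX
    rw [Finset.sum_boole, Nat.cast_id]
    have : {v | v ∈ S ∧ Lpw p v d} = ((hS.toFinset.filter (fun v => Lpw p v d) : Finset _) :
        Set (HeightOneSpectrum (𝓞 F))) := by
      ext v
      simp
    rw [this, Set.ncard_coe_finset]
  rw [hs, Finset.mul_sum, Finset.card_eq_sum_ones, ← Finset.sum_add_distrib]
  refine Finset.sum_le_sum fun v _ => ?_
  have h2 : 1 ≤ p := hpp.one_lt.le
  have h3 := Pool.Agent.Q177.GK.fibre hζ hK hd v (hP.toFinset.filter (fun Q => Q.under (𝓞 F) = v)) (by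
    intro P hP'
    rw [Finset.mem_filter] at hP'
    exact Pool.Agent.Q252.LS.over_of_ab ((Pool.Agent.Q223.LS.ab_iff _ _).2 hP'.2))
  split_ifs with h
  · have := h3.1
    omega
  · have := h3.2 h
    omega

theorem places_L (hp : p ≠ 2) {ζ d : F} (hζ : IsPrimitiveRoot ζ p) (hK : Kum p F L d) :
    InfinitePlace.nrRealPlaces F = 0 ∧ InfinitePlace.nrRealPlaces L = 0 ∧
      InfinitePlace.nrComplexPlaces L = p * InfinitePlace.nrComplexPlaces F ∧
      0 < InfinitePlace.nrComplexPlaces F := by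
  have htF : IsTotallyComplex F := tot_complex hp hζ
  have hζL : IsPrimitiveRoot (algebraMap F L ζ) p := hζ.map_of_injective (algebraMap F L).injective
  have htL : IsTotallyComplex L := tot_complex hp hζL
  have h6 : Module.finrank ℚ F = 2 * InfinitePlace.nrComplexPlaces F := IsTotallyComplex.finrank F
  have h7 : Module.finrank ℚ L = 2 * InfinitePlace.nrComplexPlaces L := IsTotallyComplex.finrank L
  have h8 : Module.finrank ℚ F * Module.finrank F L = Module.finrank ℚ L := Module.finrank_mul_finrank ℚ F L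
  rw [hK.deg] at h8
  have h9 : 0 < Module.finrank ℚ F := Module.finrank_pos
  refine ⟨NumberField.nrRealPlaces_eq_zero_iff.2 htF, NumberField.nrRealPlaces_eq_zero_iff.2 htL, ?_, by omega⟩
  have h10 : 2 * InfinitePlace.nrComplexPlaces L = 2 * (p * InfinitePlace.nrComplexPlaces F) := by
    rw [← h7, ← h8, h6]
    ring
  omega

/-- the defect of `L` and the rank of the relative units -/
theorem defect_le (hp : p ≠ 2) {Lg : ℂ_[p] → ℂ_[p]} (hL : IsIwasawaLog p Lg) {ζ d : F}
    (hζ : IsPrimitiveRoot ζ p) (hK : Kum p F L d) (hd : ¬ IsPow p d) (T : Set (HeightOneSpectrum (𝓞 F)))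
    {S : Set (HeightOneSpectrum (𝓞 F))} (hS : S.Finite) :
    srk L (PS F L S) + lrk Lg T (SU S) + lrk Lg (PS F L T) (NS L S) ≤
      srk F S + lrk Lg (PS F L T) (SU (PS F L S)) +
        (p - 1) * (InfinitePlace.nrComplexPlaces F + sX p S d) := by
  have hpp : p.Prime := Fact.out
  obtain ⟨h1, h2, h3, h4⟩ := places_L (L := L) hp hζ hK
  have h5 := card_PS_le hζ hK hd hS
  have h6 := lrk_add hL hK.deg T S
  unfold srk
  rw [h1, h2, h3, Nat.mul_add]
  obtain ⟨w, hw⟩ : ∃ w, p = w + 1 := ⟨p - 1, by have := hpp.pos; omega⟩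
  have h7 : p * InfinitePlace.nrComplexPlaces F =
      (p - 1) * InfinitePlace.nrComplexPlaces F + InfinitePlace.nrComplexPlaces F := by
    rw [hw, Nat.add_sub_cancel]
    ring
  omega

/-- few new relations: the rank of the relative units is large -/
theorem relrk_ge (hp : p ≠ 2) {Lg : ℂ_[p] → ℂ_[p]} (hL : IsIwasawaLog p Lg) {ζ d : F}
    (hζ : IsPrimitiveRoot ζ p) (hK : Kum p F L d) (hd : ¬ IsPow p d) {T S : Set (HeightOneSpectrum (𝓞 F))}
    (hT : ∀ v ∈ T, Dp p v) (hTS : Disjoint T S) (hS : S.Finite) {t : ℕ} (ht : 1 ≤ t)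
    (hO : ¬ OutMS L p T S ((p - 1) * (InfinitePlace.nrComplexPlaces F + sX p S d - dT p T + t - 1) + 1)) :
    (p - 1) * min (InfinitePlace.nrComplexPlaces F + sX p S d) (dT p T) ≤
      lrk Lg (PS F L T) (NS L S) + (p - 1) * (t - 1) := by
  set r := InfinitePlace.nrComplexPlaces F with hr
  set s := sX p S d with hs
  set N := dT p T with hN
  have hU : ∀ x ∈ NS L S, ∀ v ∈ T, Un v (x : L) := fun x hx => un_of_NS hTS hx
  have hI : IndH p T (NS L S) ((p - 1) * (min (r + s) N - (t - 1))) := by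
    rcases le_or_gt (t - 1) (min (r + s) N) with hts | hts
    · by_contra hc
      refine hO (out_of_rank t_NSB t_RKR hp hζ hK hd hT hTS hS hc ?_)
      have h3 : (p - 1) * (r + s - N + t - 1) + (p - 1) * (min (r + s) N - (t - 1)) = (p - 1) * (r + s) := by
        rw [← Nat.mul_add]
        congr 1
        omega
      change _ + _ ≤ (p - 1) * (r + s) + 1
      omega
    · have h4 : min (r + s) N - (t - 1) = 0 := by omega
      rw [h4, mul_zero]
      exact ⟨fun i => i.elim0, fun i => i.elim0, fun a _ => Subsingleton.elim _ _⟩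
  have h5 := le_lrk_of_indH hp hL hT hU hI
  have h6 : (p - 1) * min (r + s) N ≤ (p - 1) * (min (r + s) N - (t - 1)) + (p - 1) * (t - 1) := by
    rw [← Nat.mul_add]
    exact Nat.mul_le_mul_left _ (by omega)
  omega

/-- the rank of the relative units is at most `(p - 1) N` -/
theorem relrk_le (hp : p ≠ 2) {Lg : ℂ_[p] → ℂ_[p]} (hL : IsIwasawaLog p Lg) (hdeg : Module.finrank F L = p)
    {T S : Set (HeightOneSpectrum (𝓞 F))} (hT : ∀ v ∈ T, Dp p v) (hTS : Disjoint T S) :
    lrk Lg (PS F L T) (NS L S) ≤ (p - 1) * dT p T := by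
  by_contra hc
  push Not at hc
  exact not_ind t_DEP hp hdeg hT hTS (indH_of_le_lrk hL hT hc)

end L

end Pool.Agent.H575.LS
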