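import Pool.Agent.H575.LS.Rank

set_option autoImplicit false
set_option linter.unusedSectionVars false

/-!
# The rank of the group of the relative `S`-units
-/

namespace Pool.Agent.H575.LS

open NumberField IsDedekindDomain Filter Topology Finset
open Pool.Agent.Q7.LK
open Pool.Agent.Q7.LS
open Pool.Agent.Q7.GK (Em)
open Pool.Agent.Q223.LS (PS mem_SUn PS_finite)
open Pool.Agent.W289.SL (IsIwasawaLog)
open Pool.Agent.H575.GK (t_SUR)

theorem SU_finrank {K : Type} [Field K] [NumberField K] {S : Set (HeightOneSpectrum (𝓞 K))} (hS : S.Finite) :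
    Module.Finite ℤ (Additive (SU S)) ∧ Module.finrank ℤ (Additive (SU S)) = srk K S := by
  obtain ⟨U, hU, hUfg, hUr⟩ := t_SUR K S hS
  have hUS : U = SU S := by
    ext x
    rw [hU]
    rfl
  subst hUS
  refine ⟨?_, hUr⟩
  rw [Module.Finite.iff_addGroup_fg]
  exact GroupFG.iff_add_fg.1 hUfg

section L

variable {p : ℕ} [Fact p.Prime] {F : Type} [Field F] [NumberField F] {L : Type} [Field L] [NumberField L] [Algebra F L]

/-- independence of the elements of norm `1` and the elements of `F` -/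
theorem card_ind {Lg : ℂ_[p] → ℂ_[p]} (hL : IsIwasawaLog p Lg) (hdeg : Module.finrank F L = p)
    (T : Set (HeightOneSpectrum (𝓞 F))) {S : Set (HeightOneSpectrum (𝓞 F))} (hS : S.Finite) :
    lrk Lg (PS F L T) (NS L S) + srk F S ≤ srk L (PS F L S) := by
  classical
  have hpp : p.Prime := Fact.out
  obtain ⟨ε, hε, hi⟩ := (le_lrk_iff Lg (PS F L T) (NS L S) _).1 le_rfl
  obtain ⟨hV1, hV2⟩ := SU_finrank hS
  obtain ⟨hM1, hM2⟩ := SU_finrank (PS_finite (L := L) hS)
  obtain ⟨f, hf⟩ := exists_linearIndependent_of_le_finrank (R := ℤ) (M := Additive (SU S)) (n := srk F S) hV2.ge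
  have hfm : ∀ j, (Additive.toMul (f j) : SU S).1 ∈ SU S := fun j => (Additive.toMul (f j)).2
  -- the images in `L`
  let y : Fin (srk F S) → Lˣ := fun j => Units.map (algebraMap F L : F →* L) ((Additive.toMul (f j) : SU S) : Fˣ)
  have hy : ∀ j, y j ∈ SU (PS F L S) := by
    intro j
    rw [← SUn_eq]
    intro v hv P hP
    change P.valuation L (algebraMap F L (((Additive.toMul (f j) : SU S) : Fˣ) : F)) = 1
    rw [Pool.Agent.TeamU.val_over (Pool.Agent.Q252.LS.over_of_ab hP)]
    have h1 : v.valuation F (((Additive.toMul (f j) : SU S) : Fˣ) : F) = 1 := hfm j v hv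
    rw [h1, one_pow]
  have hε' : ∀ i, ε i ∈ SU (PS F L S) := by
    intro i
    rw [← SUn_eq]
    exact (hε i).1
  let g : Fin (lrk Lg (PS F L T) (NS L S)) ⊕ Fin (srk F S) → Additive (SU (PS F L S)) :=
    Sum.elim (fun i => Additive.ofMul ⟨ε i, hε' i⟩) (fun j => Additive.ofMul ⟨y j, hy j⟩)
  have hg : LinearIndependent ℤ g := by
    rw [Fintype.linearIndependent_iff]
    intro c hc
    rw [Fintype.sum_sum_type] at hc
    have hc2 : (∏ i, ε i ^ c (Sum.inl i)) * ∏ j, y j ^ c (Sum.inr j) = 1 := by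
      have hc' : (∏ i, (⟨ε i, hε' i⟩ : SU (PS F L S)) ^ c (Sum.inl i)) *
          ∏ j, (⟨y j, hy j⟩ : SU (PS F L S)) ^ c (Sum.inr j) = 1 := hc
      have h := congrArg (SU (PS F L S)).subtype hc'
      rw [map_mul, map_prod, map_prod, map_one] at h
      exact h
    have hn := congrArg (nmU F) hc2
    rw [map_mul, map_prod, map_prod, map_one] at hn
    have h1 : ∀ i, nmU F (ε i ^ c (Sum.inl i)) = 1 := by
      intro i
      have h3 : nmU F (ε i) = 1 := (hε i).2
      rw [map_zpow, h3, one_zpow]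
    have h2 : ∀ j, nmU F (y j ^ c (Sum.inr j)) =
        (((Additive.toMul (f j) : SU S) : Fˣ)) ^ ((p : ℤ) * c (Sum.inr j)) := by
      intro j
      have h3 : nmU F (y j) = (((Additive.toMul (f j) : SU S) : Fˣ)) ^ (p : ℤ) := by
        apply Units.ext
        change Algebra.norm F (algebraMap F L (((Additive.toMul (f j) : SU S) : Fˣ) : F)) = _
        rw [Algebra.norm_algebraMap, hdeg, zpow_natCast, Units.val_pow_eq_pow_val]
      rw [map_zpow, h3, zpow_mul]
    rw [Finset.prod_congr rfl (fun i _ => h1 i), Finset.prod_const_one, one_mul,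
      Finset.prod_congr rfl (fun j _ => h2 j)] at hn
    have h3 : ∑ j, ((p : ℤ) * c (Sum.inr j)) • f j = 0 := by
      have h4 : ∏ j, (Additive.toMul (f j) : SU S) ^ ((p : ℤ) * c (Sum.inr j)) = 1 := by
        apply (SU S).subtype_injective
        rw [map_prod, map_one]
        exact hn
      exact h4
    rw [Fintype.linearIndependent_iff] at hf
    have h5 : ∀ j, c (Sum.inr j) = 0 := by
      intro j
      have h6 := hf _ h3 j
      rcases mul_eq_zero.1 h6 with h7 | h7
      · exact absurd h7 (by exact_mod_cast hpp.ne_zero)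
      · exact h7
    simp only [h5, zpow_zero, Finset.prod_const_one, mul_one] at hc2
    have h6 : (fun i => (c (Sum.inl i) : ℂ_[p])) = 0 := by
      apply hi
      intro σ _
      have h7 := Pool.Agent.Q26.LS.log_prod hL σ ε (fun i => c (Sum.inl i))
      rw [hc2] at h7
      simp only [Units.val_one, map_one, hL.one] at h7
      exact h7.symm
    rintro (i | j)
    · have h8 : (c (Sum.inl i) : ℂ_[p]) = 0 := congrFun h6 i
      exact_mod_cast h8
    · exact h5 j
  have h1 := hg.fintype_card_le_finrank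
  rw [Fintype.card_sum, Fintype.card_fin, Fintype.card_fin, hM2] at h1
  exact h1

/-- the rank of the relative units is at most `(p - 1) (r + s)` -/
theorem relrk_le' (hp : p ≠ 2) {Lg : ℂ_[p] → ℂ_[p]} (hL : IsIwasawaLog p Lg) {ζ d : F}
    (hζ : IsPrimitiveRoot ζ p) (hK : Kum p F L d) (hd : ¬ IsPow p d) (T : Set (HeightOneSpectrum (𝓞 F)))
    {S : Set (HeightOneSpectrum (𝓞 F))} (hS : S.Finite) :
    lrk Lg (PS F L T) (NS L S) ≤ (p - 1) * (InfinitePlace.nrComplexPlaces F + sX p S d) := by
  have hpp : p.Prime := Fact.out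
  obtain ⟨h1, h2, h3, h4⟩ := places_L (L := L) hp hζ hK
  have h5 := card_PS_le hζ hK hd hS
  have h6 := card_ind hL hK.deg T hS
  unfold srk at h6
  rw [h1, h2, h3] at h6
  rw [Nat.mul_add]
  obtain ⟨w, hw⟩ : ∃ w, p = w + 1 := ⟨p - 1, by have := hpp.pos; omega⟩
  have h7 : p * InfinitePlace.nrComplexPlaces F =
      (p - 1) * InfinitePlace.nrComplexPlaces F + InfinitePlace.nrComplexPlaces F := by
    rw [hw, Nat.add_sub_cancel]
    ring
  omega

end L

end Pool.Agent.H575.LS
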